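import Pool.Agent.Helper92.ZH.Goals

/-!
# MP_a41896_nt, project T3, packet LOWH: the constant point is low if the function of one block vanishes at a generic point of
the surface
-/

set_option autoImplicit false

open MvPolynomial

namespace Pool.Agent.Helper46.ZH.LOWH

open WeierstrassCurve Height
open Pool.Agent.Helper29.BL Pool.Agent.Helper92.Ru Pool.Agent.Helper42.SG
open Pool.Agent.Helper68.VN Pool.Agent.Helper92.ZH
open Pool.Agent.Helper60.HC (Lo)

/-! ## General facts -/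

lemma not_mem_vars {R V : Type} [CommSemiring R] (p : MvPolynomial V R) (v : V)
    (h : p.degreeOf v = 0) : v ∉ p.vars := by
  classical
  rw [degreeOf_def, Multiset.count_eq_zero] at h
  rw [vars_def, Multiset.mem_toFinset]
  exact h

lemma degreeOf_zero {R V : Type} [CommSemiring R] (p : MvPolynomial V R) (v : V)
    (h : v ∉ p.vars) : p.degreeOf v = 0 := by
  classical
  rw [vars_def, Multiset.mem_toFinset] at h
  rw [degreeOf_def, Multiset.count_eq_zero]
  exact h

/-- a nonzero polynomial in independent coordinates does not vanish -/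
lemma gen {K Ω V : Type} [Field K] [Field Ω] [Algebra K Ω] (P : V → Ω) (S : Set V)
    (hi : AlgebraicIndependent K (fun v : S => P v.1)) (p : MvPolynomial V K) (hp : p ≠ 0)
    (hv : ∀ v, v ∉ S → p.degreeOf v = 0) : aeval P p ≠ 0 := by
  obtain ⟨q, hq⟩ := exists_rename_eq_of_vars_subset_range p (Subtype.val : S → V)
    Subtype.val_injective (by
      intro v hvv
      rw [Subtype.range_coe]
      by_contra hc
      exact not_mem_vars p v (hv v hc) hvv)
  intro h0
  have h1 : aeval (fun v : S => P v.1) q = 0 := by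
    rw [← hq, aeval_rename] at h0
    exact h0
  have h2 : q = 0 := (injective_iff_map_eq_zero _).1 hi q h1
  rw [h2, map_zero] at hq
  exact hp hq.symm

lemma degreeOf_spT {K σ τ : Type} [Field K] (η : τ → K) (R : MvPolynomial (σ ⊕ τ) K) (h : σ)
    (h0 : R.degreeOf (Sum.inl h) = 0) : (spT η R).degreeOf h = 0 := by
  classical
  apply degreeOf_zero
  intro hm
  have h1 := vars_bind₁ (Sum.elim X fun t => C (η t) : σ ⊕ τ → MvPolynomial σ K) R hm
  rw [Finset.mem_biUnion] at h1
  obtain ⟨v, hv, hv2⟩ := h1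
  rcases v with v | v
  · rw [Sum.elim_inl, vars_X, Finset.mem_singleton] at hv2
    subst hv2
    exact not_mem_vars R _ h0 hv
  · rw [Sum.elim_inr, vars_C] at hv2
    exact absurd hv2 (Finset.notMem_empty _)

lemma degreeOf_rename_zero {K σ τ : Type} [Field K] (e : σ → τ) (p : MvPolynomial σ K) (v : τ)
    (h0 : ∀ u, e u ≠ v) : (rename e p).degreeOf v = 0 := by
  classical
  apply degreeOf_zero
  intro hm
  have h1 := vars_rename e p hm
  rw [Finset.mem_image] at h1
  obtain ⟨u, _, hu⟩ := h1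
  exact h0 u hu

lemma PH_rename {k : Type} [Field k] [NumberField k] {τ υ : Type} (e : τ → υ)
    (he : Function.Injective e) (p : MvPolynomial τ k) : PH (rename e p) = PH p := by
  classical
  have hs : ∀ u : τ →₀ ℕ, Finsupp.mapDomain e u ∈ (rename e p).support ↔ u ∈ p.support := by
    intro u
    rw [mem_support_iff, mem_support_iff, coeff_rename_mapDomain _ he]
  obtain ⟨E, hE⟩ : ∃ E : p.support → (rename e p).support, ∀ u, (E u).1 = Finsupp.mapDomain e u.1 :=
    ⟨fun u => ⟨Finsupp.mapDomain e u.1, (hs u.1).mpr u.2⟩, fun _ => rfl⟩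
  have hb : Function.Bijective E := by
    constructor
    · intro u v huv
      apply Subtype.ext
      apply Finsupp.mapDomain_injective he
      rw [← hE u, ← hE v, huv]
    · rintro ⟨v, hv⟩
      have hv' := hv
      rw [support_rename_of_injective he, Finset.mem_image] at hv'
      obtain ⟨u, hu, huv⟩ := hv'
      exact ⟨⟨u, hu⟩, Subtype.ext ((hE _).trans huv)⟩
  have h := Height.mulHeight_comp_equiv (Equiv.ofBijective E hb)
    (fun v : (rename e p).support => coeff v.1 (rename e p))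
  unfold PH
  rw [← h]
  congr 1
  funext u
  rw [Function.comp_apply, Equiv.ofBijective_apply, hE, coeff_rename_mapDomain _ he]

lemma log_PH_zero {k : Type} [Field k] [NumberField k] {σ : Type} :
    Real.log (PH (0 : MvPolynomial σ k)) = 0 := by
  have : IsEmpty ((0 : MvPolynomial σ k).support) := by
    rw [support_zero]
    infer_instance
  have h : (fun e : (0 : MvPolynomial σ k).support => coeff e.1 (0 : MvPolynomial σ k)) = 0 := by
    funext e
    simp
  unfold PH
  rw [h, Height.mulHeight_zero, Real.log_one]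

lemma Bf_map {K : Type} [Field K] {A : Type} [CommRing A] [Algebra K A] {σ : Type}
    (W : σ → Affine K) (i : σ) (x : K) :
    Bf (mapS A W i) (algebraMap K A x) = algebraMap K A (Bf (W i) x) := by
  simp only [Bf, mapS, map_b₂, map_b₄, map_b₆, map_add, map_mul, map_pow, map_ofNat]

/-- one block: `P0B` is `val1` -/
lemma P0B_one {K : Type} [Field K] {A : Type} [CommRing A] [Algebra K A] {σ : Type} [Fintype σ]
    [DecidableEq σ] (W : σ → Affine K) (M e1 : ℕ) (a : Ax σ M e1 → K)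
    (X Ψ : Fin 1 → σ → A) (X0 Ψ0 : σ → A) :
    P0B W 1 M 1 (fun _ => e1) (fun α => a (α.1 0)) X Ψ X0 Ψ0 =
      val1 W M e1 (fun α => algebraMap K A (a α)) (X 0) (Ψ 0) X0 Ψ0 := by
  unfold P0B PB val1
  rw [Fintype.sum_prod_type]
  rw [← (Equiv.funUnique (Fin 1) (Ax σ M e1)).symm.sum_comp]
  refine Finset.sum_congr rfl fun α _ => ?_
  rw [Fintype.sum_unique]
  have h1 : ∏ i, X0 i ^ ((default : σ → Fin 1) i).val = 1 := by
    apply Finset.prod_eq_one
    intro i _
    have : ((default : σ → Fin 1) i).val = 0 := by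
      have := ((default : σ → Fin 1) i).isLt
      omega
    rw [this, pow_zero]
  simp only [h1, mul_one, Fin.prod_univ_one]
  rfl

/-- two generic points with independent coordinates different from `i'` -/
lemma exists_gen (K σ : Type) [Field K] (i' : σ) :
    ∃ (Ω : Type) (_ : Field Ω) (_ : Algebra K Ω) (_ : IsAlgClosed Ω) (x y : σ → Ω),
      AlgebraicIndependent K (Sum.elim (fun i : {i : σ // i ≠ i'} => x i.1)
        (fun i : {i : σ // i ≠ i'} => y i.1)) := by
  classical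
  let I : Type := {i : σ // i ≠ i'} ⊕ {i : σ // i ≠ i'}
  let R : Type := MvPolynomial I K
  let F : Type := FractionRing R
  let Ω : Type := AlgebraicClosure F
  have hinj : Function.Injective (algebraMap R Ω) := by
    rw [IsScalarTower.algebraMap_eq R F Ω]
    exact (algebraMap F Ω).injective.comp (IsFractionRing.injective R F)
  refine ⟨Ω, inferInstance, inferInstance, inferInstance,
    fun i => if h : i ≠ i' then algebraMap R Ω (X (Sum.inl ⟨i, h⟩)) else 0,
    fun i => if h : i ≠ i' then algebraMap R Ω (X (Sum.inr ⟨i, h⟩)) else 0, ?_⟩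
  have h := (algebraicIndependent_X I K).map' (f := IsScalarTower.toAlgHom K R Ω) hinj
  have h2 : (Sum.elim (fun i : {i : σ // i ≠ i'} =>
      (fun i => if h : i ≠ i' then algebraMap R Ω (X (Sum.inl ⟨i, h⟩)) else 0 : σ → Ω) i.1)
      (fun i : {i : σ // i ≠ i'} =>
      (fun i => if h : i ≠ i' then algebraMap R Ω (X (Sum.inr ⟨i, h⟩)) else 0 : σ → Ω) i.1)) =
      (IsScalarTower.toAlgHom K R Ω) ∘ (X : I → R) := by
    funext j
    rcases j with j | j
    · simp only [Sum.elim_inl, Function.comp_apply, IsScalarTower.coe_toAlgHom', dif_pos j.2]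
    · simp only [Sum.elim_inr, Function.comp_apply, IsScalarTower.coe_toAlgHom', dif_pos j.2]
  rw [h2]
  exact h

/-- the family of the coordinates of the pair of points is independent -/
lemma ind_pair {K Ω σ : Type} [Field K] [Field Ω] [Algebra K Ω] (i' : σ) (x y : σ → Ω)
    (hi : AlgebraicIndependent K (Sum.elim (fun i : {i : σ // i ≠ i'} => x i.1)
      (fun i : {i : σ // i ≠ i'} => y i.1))) (P : VV σ 1 → Ω)
    (hx : ∀ i, i ≠ i' → P (Sum.inl (0, i)) = x i) (hy : ∀ i, i ≠ i' → P (Sum.inr i) = y i) :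
    AlgebraicIndependent K (fun v : {v : VV σ 1 | v ≠ Sum.inl (0, i') ∧ v ≠ Sum.inr i'} =>
      P v.1) := by
  classical
  have key : ∀ v : {v : VV σ 1 | v ≠ Sum.inl (0, i') ∧ v ≠ Sum.inr i'},
      ∃ j : {i : σ // i ≠ i'} ⊕ {i : σ // i ≠ i'},
        v.1 = Sum.elim (fun i : {i : σ // i ≠ i'} => (Sum.inl (0, i.1) : VV σ 1))
          (fun i : {i : σ // i ≠ i'} => Sum.inr i.1) j := by
    rintro ⟨v, hv1, hv2⟩
    rcases v with ⟨j, i⟩ | i
    · obtain rfl : j = 0 := Subsingleton.elim _ _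
      refine ⟨Sum.inl ⟨i, fun h => hv1 (by rw [h])⟩, rfl⟩
    · exact ⟨Sum.inr ⟨i, fun h => hv2 (by rw [h])⟩, rfl⟩
  choose f hf using key
  have hfi : Function.Injective f := by
    intro u v huv
    apply Subtype.ext
    rw [hf u, hf v, huv]
  have h1 := hi.comp f hfi
  convert h1 using 1
  funext v
  simp only [Function.comp_apply]
  rw [hf v]
  generalize f v = w
  rcases w with j | j
  · simp only [Sum.elim_inl]
    exact hx j.1 j.2
  · simp only [Sum.elim_inr]
    exact hy j.1 j.2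

/-- the sign vector does not change the equation of the curve -/
lemma sign_sq {A : Type} [CommRing A] (u : ℤˣ) (y : A) : (((u : ℤˣ) : ℤ) * y : A) ^ 2 = y ^ 2 := by
  rcases Int.units_eq_one_or u with h | h <;> rw [h] <;> simp

lemma height_sum (D0 n1 : ℕ) (C0 CA C1 C2 q0 q1 : ℝ)
    (hC1 : 0 ≤ C1) (hC2 : 0 ≤ C2) (hq1 : 1 ≤ q1) (hq : q1 ≤ q0) :
    (D0 * (n1 * q1)) * (C0 * (q0 / q1)) +
      D0 * (n1 * (C0 * q0) + D0 * (C1 * (q1 + CA * q0)) + C2 * (n1 * q1)) +
      C2 * (2 * (D0 + 1) * (n1 * q1)) ≤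
    (D0 * n1 * C0 + D0 * (n1 * C0 + D0 * (C1 * (1 + CA)) + C2 * n1) +
      C2 * (2 * (D0 + 1) * n1)) * q0 := by
  have h0 : 0 ≤ q0 := by linarith
  have h1 : (D0 * (n1 * q1)) * (C0 * (q0 / q1)) = D0 * n1 * C0 * q0 := by
    have : q1 ≠ 0 := by linarith
    field_simp
  have h2 : C1 * (q1 + CA * q0) ≤ C1 * (1 + CA) * q0 := by
    have : q1 + CA * q0 ≤ (1 + CA) * q0 := by linarith
    calc C1 * (q1 + CA * q0) ≤ C1 * ((1 + CA) * q0) := by gcongr
      _ = _ := by ring
  have h3 : (n1 : ℝ) * q1 ≤ n1 * q0 := by gcongr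
  calc (D0 * (n1 * q1)) * (C0 * (q0 / q1)) +
      D0 * (n1 * (C0 * q0) + D0 * (C1 * (q1 + CA * q0)) + C2 * (n1 * q1)) +
      C2 * (2 * (D0 + 1) * (n1 * q1))
      ≤ D0 * n1 * C0 * q0 +
      D0 * (n1 * (C0 * q0) + D0 * (C1 * (1 + CA) * q0) + C2 * (n1 * q0)) +
      C2 * (2 * (D0 + 1) * (n1 * q0)) := by
        rw [h1]
        gcongr
    _ = _ := by ring

/-- **LOWH** -/
theorem t (hNQ : NQX2) (hRES : RESE) (hSPZ : SPZ) : Pool.Agent.Helper92.ZH.LOWH := by
  classical
  intro K _ _ σ _ _ W hW M D0 C0 CA hM hC0 hCA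
  obtain ⟨C1, hC1, h1⟩ := hNQ K σ W 1 M 1 le_rfl hM le_rfl
  obtain ⟨C2, hC2, h2⟩ := hRES K (VV σ 1) D0
  obtain ⟨n1, hn1⟩ : ∃ n1, n1 = nsg σ 1 * (2 * M + 1) := ⟨_, rfl⟩
  refine ⟨D0 * (2 * n1 * D0), D0 * n1 * C0 + D0 * (n1 * C0 + D0 * (C1 * (1 + CA)) + C2 * n1) +
      C2 * (2 * (D0 + 1) * n1), by positivity, ?_⟩
  intro e0 e1 a i' g2 g0 x0 ψ0 he ha hint hhouse hg2 hg0 hx0 hψ0 hIND Ω _ _ _ X Ψ hΨ hXg2 hXi hval
  obtain ⟨Q2, hQd, hQh, hQv⟩ := h1 (fun _ => e1) (fun α => a (α.1 0)) (CA * 4 ^ e0)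
    (by positivity) (fun α => hint _) (fun α => hhouse _)
  have hq : (4 : ℝ) ^ e1 ≤ 4 ^ e0 := pow_le_pow_right₀ (by norm_num) he
  have hq1 : (1 : ℝ) ≤ 4 ^ e1 := one_le_pow₀ (by norm_num)
  have hq1n : 1 ≤ 4 ^ e1 := Nat.one_le_pow _ _ (by norm_num)
  have hns : 1 ≤ nsg σ 1 := Nat.one_le_pow _ _ (by norm_num)
  have hn1' : 1 ≤ n1 := by
    rw [hn1]
    exact Nat.one_le_iff_ne_zero.2 (Nat.mul_ne_zero (by omega) (by omega))
  have hnq : n1 ≤ n1 * 4 ^ e1 := Nat.le_mul_of_pos_right _ (by omega)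
  have hnq1 : 1 ≤ n1 * 4 ^ e1 := hn1'.trans hnq
  have hQl : ∀ h : Fin 1 × σ, Q2.degreeOf (Sum.inl h) ≤ n1 * 4 ^ e1 := fun h =>
    (hQd _).trans (le_of_eq (by rw [hn1]; simp only [ddB, Sum.elim_inl]; ring))
  have hQr : ∀ i : σ, Q2.degreeOf (Sum.inr i) ≤ n1 := fun i =>
    (hQd _).trans (le_of_eq (by rw [hn1]; simp only [ddB, Sum.elim_inr, mul_one]))
  -- the two surfaces
  have hir : Function.Injective (Sum.inr : σ → VV σ 1) := Sum.inr_injective
  have hil : Function.Injective (fun i : σ => (Sum.inl (0, i) : VV σ 1)) := by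
    intro i j hij
    simpa using hij
  obtain ⟨G0, hG0⟩ : ∃ G0 : MvPolynomial (VV σ 1) K, G0 = rename Sum.inr g0 := ⟨_, rfl⟩
  obtain ⟨G2, hG2⟩ : ∃ G2 : MvPolynomial (VV σ 1) K,
    G2 = rename (fun i : σ => (Sum.inl (0, i) : VV σ 1)) g2 := ⟨_, rfl⟩
  have hG0r : ∀ i, G0.degreeOf (Sum.inr i) = g0.degreeOf i := fun i => by
    rw [hG0]; exact degreeOf_rename_of_injective hir i
  have hG2l : ∀ i, G2.degreeOf (Sum.inl (0, i)) = g2.degreeOf i := fun i => by
    rw [hG2]; exact degreeOf_rename_of_injective hil i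
  have hG0l : ∀ h, G0.degreeOf (Sum.inl h) = 0 := fun h => by
    rw [hG0]; exact degreeOf_rename_zero _ _ _ fun u hu => by cases hu
  have hG2r : ∀ i, G2.degreeOf (Sum.inr i) = 0 := fun i => by
    rw [hG2]; exact degreeOf_rename_zero _ _ _ fun u hu => by cases hu
  -- the first elimination
  obtain ⟨R1, hR10, hR1d, hR1h, ⟨a1, b1, hR1m⟩, hR1n⟩ := h2 (Sum.inr i') G0 Q2 n1 (n1 * 4 ^ e1)
    (by
      rintro (h | i)
      · rw [hG0l]; exact Nat.zero_le _
      · rw [hG0r]; exact hg0.deg i)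
    (by rw [hG0r]; exact hg0.pos) (hQr i') hnq hnq1
    (by
      rintro (h | i)
      · exact hQl h
      · exact (hQr i).trans hnq)
  have hR1l : ∀ h, R1.degreeOf (Sum.inl h) ≤ D0 * (n1 * 4 ^ e1) := fun h => by
    have := hR1d (Sum.inl h)
    rw [hG0l, mul_zero, zero_add] at this
    exact this.trans (Nat.mul_le_mul_left _ (hQl h))
  have hR1r : ∀ i, R1.degreeOf (Sum.inr i) ≤ 2 * n1 * D0 := fun i => by
    have := hR1d (Sum.inr i)
    rw [hG0r] at this
    have h3 := Nat.mul_le_mul_left n1 (hg0.deg i)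
    have h4 := Nat.mul_le_mul_left D0 (hQr i)
    have h5 : D0 * n1 = n1 * D0 := mul_comm _ _
    have h6 : 2 * n1 * D0 = n1 * D0 + n1 * D0 := by ring
    omega
  have hR1H : Real.log (PH R1) ≤ n1 * (C0 * 4 ^ e0) +
      D0 * (C1 * (4 ^ e1 + CA * 4 ^ e0)) + C2 * (n1 * 4 ^ e1) := by
    by_cases h0 : R1 = 0
    · rw [h0, log_PH_zero]
      positivity
    · refine (hR1h h0).trans ?_
      have h3 : Real.log (PH G0) ≤ C0 * 4 ^ e0 := by
        rw [hG0, PH_rename _ hir]; exact hg0.ht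
      have h4 : Real.log (PH Q2) ≤ C1 * (4 ^ e1 + CA * 4 ^ e0) := by
        refine hQh.trans (le_of_eq ?_)
        simp [sqB]
      have h5 : ((n1 * 4 ^ e1 : ℕ) : ℝ) = n1 * 4 ^ e1 := by push_cast; ring
      rw [h5]
      gcongr
  -- the second elimination
  have hdd : 2 * n1 * D0 ≤ 2 * (D0 + 1) * (n1 * 4 ^ e1) := by
    calc 2 * n1 * D0 = 2 * D0 * n1 := by ring
      _ ≤ 2 * (D0 + 1) * (n1 * 4 ^ e1) := Nat.mul_le_mul (by omega) hnq
  have hdd2 : D0 * (n1 * 4 ^ e1) ≤ 2 * (D0 + 1) * (n1 * 4 ^ e1) :=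
    Nat.mul_le_mul_right _ (by omega)
  have hdd1 : 1 ≤ 2 * (D0 + 1) * (n1 * 4 ^ e1) :=
    Nat.one_le_iff_ne_zero.2 (Nat.mul_ne_zero (by omega) (by omega))
  obtain ⟨R2, hR20, hR2d, hR2h, ⟨a2, b2, hR2m⟩, hR2n⟩ := h2 (Sum.inl (0, i')) G2 R1
    (D0 * (n1 * 4 ^ e1)) (2 * (D0 + 1) * (n1 * 4 ^ e1))
    (by
      rintro (⟨j, i⟩ | i)
      · obtain rfl : j = 0 := Subsingleton.elim _ _
        rw [hG2l]; exact hg2.deg i
      · rw [hG2r]; exact Nat.zero_le _)
    (by rw [hG2l]; exact hg2.pos) (hR1l _) hdd2 hdd1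
    (by
      rintro (h | i)
      · exact (hR1l h).trans hdd2
      · exact (hR1r i).trans hdd)
  have hR2r : ∀ i, R2.degreeOf (Sum.inr i) ≤ D0 * R1.degreeOf (Sum.inr i) := fun i => by
    have := hR2d (Sum.inr i)
    rw [hG2r, mul_zero, zero_add] at this
    exact this
  -- the two products
  have hprod : ∀ (Ω : Type) [Field Ω] [Algebra K Ω] (X Ψ X0 Ψ0 : σ → Ω),
      (∀ i, Ψ i ^ 2 = Bf (mapS Ω W i) (X i)) → (∀ i, Ψ0 i ^ 2 = Bf (mapS Ω W i) (X0 i)) →
      aeval (Sum.elim (fun h : Fin 1 × σ => X h.2) X0) Q2 = ∏ ε : Fin 1 × σ → ℤˣ,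
        val1 W M e1 (fun α => algebraMap K Ω (a α)) X
          (fun i => (((ε (0, i) : ℤˣ) : ℤ) : Ω) * Ψ i) X0 Ψ0 := by
    intro Ω _ _ X Ψ X0 Ψ0 hΨ hΨ0
    have h3 := hQv Ω (fun _ => X) (fun _ => Ψ) X0 Ψ0 ⟨fun _ i => hΨ i, hΨ0⟩
    rw [h3]
    refine Finset.prod_congr rfl fun ε _ => ?_
    rw [P0B_one]
  -- non-vanishing
  have hne : R2 ≠ 0 := by
    obtain ⟨Ω', _, _, _, x, y, hxy⟩ := exists_gen K σ i'
    obtain ⟨P, hP⟩ : ∃ P : VV σ 1 → Ω', P = Sum.elim (fun h => x h.2) y := ⟨_, rfl⟩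
    have hPx : ∀ i, P (Sum.inl (0, i)) = x i := fun i => by rw [hP]; rfl
    have hPy : ∀ i, P (Sum.inr i) = y i := fun i => by rw [hP]; rfl
    have h3 : aeval P R2 ≠ 0 := by
      refine hR2n Ω' P ?_ ?_
      · intro p hp hpd hp0
        refine gen P _ (ind_pair i' x y hxy P (fun i _ => hPx i) (fun i _ => hPy i)) p hp ?_
        intro v hv
        by_cases hv1 : v = Sum.inl (0, i')
        · rw [hv1]; exact hp0
        by_cases hv2 : v = Sum.inr i'
        · rw [hv2]
          have := hpd (Sum.inr i')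
          rw [hG2r] at this
          omega
        exact absurd ⟨hv1, hv2⟩ hv
      · intro t ht
        obtain ⟨P', hP'⟩ : ∃ P' : VV σ 1 → Ω', P' = Function.update P (Sum.inl (0, i')) t :=
          ⟨_, rfl⟩
        rw [← hP'] at ht ⊢
        have hP'x : ∀ i, i ≠ i' → P' (Sum.inl (0, i)) = x i := fun i hi => by
          rw [hP', Function.update_of_ne (fun h => hi (by simpa using h)), hPx]
        have hP'y : ∀ i, P' (Sum.inr i) = y i := fun i => by
          rw [hP', Function.update_of_ne (by simp), hPy]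
        refine hR1n Ω' P' ?_ ?_
        · intro p hp hpd hp0
          refine gen P' _ (ind_pair i' x y hxy P' hP'x (fun i _ => hP'y i)) p hp ?_
          intro v hv
          by_cases hv1 : v = Sum.inl (0, i')
          · rw [hv1]
            have := hpd (Sum.inl (0, i'))
            rw [hG0l] at this
            omega
          by_cases hv2 : v = Sum.inr i'
          · rw [hv2]; exact hp0
          exact absurd ⟨hv1, hv2⟩ hv
        · intro s hs
          obtain ⟨X1, hX1⟩ : ∃ X1 : σ → Ω', X1 = fun i => P' (Sum.inl (0, i)) := ⟨_, rfl⟩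
          obtain ⟨Y1, hY1⟩ : ∃ Y1 : σ → Ω', Y1 = Function.update y i' s := ⟨_, rfl⟩
          have hPP : Function.update P' (Sum.inr i') s =
              Sum.elim (fun h : Fin 1 × σ => X1 h.2) Y1 := by
            funext v
            rcases v with ⟨j, i⟩ | i
            · obtain rfl : j = 0 := Subsingleton.elim _ _
              rw [Function.update_of_ne (by simp), hX1]
              rfl
            · rw [Sum.elim_inr, hY1]
              by_cases hi : i = i'
              · subst hi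
                rw [Function.update_self, Function.update_self]
              · rw [Function.update_of_ne (fun h => hi (by simpa using h)),
                  Function.update_of_ne hi, hP'y]
          rw [hPP] at hs ⊢
          have hs' : aeval Y1 g0 = 0 := by
            rw [hG0, aeval_rename] at hs
            exact hs
          have ht' : aeval X1 g2 = 0 := by
            rw [hG2, aeval_rename] at ht
            rw [hX1]
            exact ht
          have hsq : ∀ i : σ, ∃ z : Ω', z ^ 2 = Bf (mapS Ω' W i) (X1 i) :=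
            fun i => IsAlgClosed.exists_pow_nat_eq _ (n := 2) (by norm_num)
          have hsq0 : ∀ i : σ, ∃ z : Ω', z ^ 2 = Bf (mapS Ω' W i) (Y1 i) :=
            fun i => IsAlgClosed.exists_pow_nat_eq _ (n := 2) (by norm_num)
          choose Φ hΦ using hsq
          choose Φ0 hΦ0 using hsq0
          rw [hprod Ω' X1 Φ Y1 Φ0 hΦ hΦ0]
          refine Finset.prod_ne_zero_iff.2 fun ε _ => ?_
          refine hIND Ω' X1 _ Y1 Φ0 (fun i => by rw [sign_sq]; exact hΦ i) hΦ0 ht' hs' ?_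
          convert hxy using 1
          funext j
          rcases j with j | j
          · rw [Sum.elim_inl, Sum.elim_inl, hX1]
            exact hP'x j.1 j.2
          · rw [Sum.elim_inr, Sum.elim_inr, hY1, Function.update_of_ne j.2]
    intro h0
    rw [h0, map_zero] at h3
    exact h3 rfl
  -- vanishing
  obtain ⟨P, hP⟩ : ∃ P : VV σ 1 → Ω, P = Sum.elim (fun h => X h.2) (cn Ω x0) := ⟨_, rfl⟩
  have hz : aeval P R2 = 0 := by
    have h3 : aeval P G2 = 0 := by
      rw [hG2, aeval_rename, hP]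
      exact hXg2
    have h4 : aeval P G0 = 0 := by
      rw [hG0, aeval_rename, hP]
      have h5 : (Sum.elim (fun h : Fin 1 × σ => X h.2) (cn Ω x0) ∘ Sum.inr : σ → Ω) =
          algebraMap K Ω ∘ x0 := rfl
      have h6 : aeval x0 g0 = 0 := hx0
      rw [h5, aeval_algebraMap_apply, h6, map_zero]
    have h5 : aeval P Q2 = 0 := by
      rw [hP, hprod Ω X Ψ (cn Ω x0) (cn Ω ψ0) hΨ (fun i => by
        rw [cn, cn, Bf_map, ← hψ0 i, map_pow])]
      refine Finset.prod_eq_zero (Finset.mem_univ 1) ?_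
      simpa using hval
    rw [hR2m, hR1m]
    simp only [map_add, map_mul, h3, h4, h5, mul_zero, add_zero]
  have hsp : spT x0 R2 = 0 := by
    by_contra hc
    have h3 : aeval (fun h : Fin 1 × σ => X h.2) (spT x0 R2) ≠ 0 := by
      refine gen _ {h : Fin 1 × σ | h.2 ≠ i'} ?_ _ hc ?_
      · have h4 := hXi.comp (fun v : {h : Fin 1 × σ | h.2 ≠ i'} => (⟨v.1.2, v.2⟩ :
          {i : σ // i ≠ i'})) (by
            rintro ⟨⟨j, i⟩, hu⟩ ⟨⟨k, l⟩, hv⟩ huv
            obtain rfl : j = k := Subsingleton.elim _ _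
            have : i = l := by simpa using huv
            subst this
            rfl)
        exact h4
      · rintro ⟨j, i⟩ hv
        obtain rfl : j = 0 := Subsingleton.elim _ _
        have hi : i = i' := by
          by_contra hi
          exact hv hi
        rw [hi]
        exact degreeOf_spT x0 R2 _ hR20
    apply h3
    rw [← hz, hP]
    have h7 : (aeval (R := K) (fun h : Fin 1 × σ => X h.2)).comp (spT x0) =
        aeval (Sum.elim (fun h : Fin 1 × σ => X h.2) (cn Ω x0)) := by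
      apply MvPolynomial.algHom_ext
      rintro (h | h)
      · simp [spT]
      · simp [spT, cn]
    rw [← h7, AlgHom.comp_apply]
  obtain ⟨p, hp0, hpd, hpH, hpe⟩ := hSPZ K (Fin 1 × σ) σ R2 x0 hne hsp
  refine ⟨p, hp0, ?_, ?_, hpe, ?_⟩
  · intro i
    refine (hpd i).trans ((hR2r i).trans (Nat.mul_le_mul_left _ (hR1r i)))
  · intro i hi
    have hii : i = i' := by
      by_contra hc
      exact hi (Finset.mem_erase.2 ⟨hc, Finset.mem_univ _⟩)
    have h3 := (hpd i).trans (hR2r i)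
    rw [hii, hR10, mul_zero] at h3
    rw [hii]
    omega
  · refine hpH.trans ((hR2h hne).trans ?_)
    refine le_trans ?_ (height_sum D0 n1 C0 CA C1 C2 (4 ^ e0) (4 ^ e1) hC1 hC2 hq1 hq)
    have h3 : Real.log (PH G2) ≤ C0 * (4 ^ e0 / 4 ^ e1) := by
      rw [hG2, PH_rename _ hil]; exact hg2.ht
    have h5 : ((D0 * (n1 * 4 ^ e1) : ℕ) : ℝ) = D0 * (n1 * 4 ^ e1) := by push_cast; ring
    have h6 : ((2 * (D0 + 1) * (n1 * 4 ^ e1) : ℕ) : ℝ) = 2 * (D0 + 1) * (n1 * 4 ^ e1) := by
      push_cast; ring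
    rw [h5, h6]
    gcongr

end Pool.Agent.Helper46.ZH.LOWH
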